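import Pool.Agent.H56.BD.AllZ
import Pool.Agent.H87.BD.W2
import Pool.Agent.H96.BD.AC1

/-!
# Posets with planar cover graphs have bounded Boolean dimension, with one Boolean function for all
-/

set_option autoImplicit false

namespace Pool.Agent.Results.MP_c9fc14_co.UniformRealizer

/-- `y` covers `x`: `x < y` and no element lies strictly between them -/
def Covers {P : Type} [PartialOrder P] (x y : P) : Prop := x < y ∧ ¬ ∃ z, x < z ∧ z < y

/-- the cover graph of `P`: `x` and `y` are adjacent when one covers the other -/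
def coverGraph (P : Type) [PartialOrder P] : SimpleGraph P where
  Adj x y := Covers x y ∨ Covers y x
  symm := ⟨fun _ _ h => h.symm⟩
  loopless := ⟨fun _ h => h.elim (fun h => lt_irrefl _ h.1) fun h => lt_irrefl _ h.1⟩

/-- `H` is a minor of `G`: there are pairwise disjoint connected (in particular nonempty) branch sets in
`G`, one for each vertex of `H`, with an edge of `G` between any two branch sets of adjacent vertices -/
def IsMinor {W V : Type} (H : SimpleGraph W) (G : SimpleGraph V) : Prop :=
  ∃ B : W → Set V, (∀ w, (G.induce (B w)).Connected) ∧ (∀ v w, v ≠ w → Disjoint (B v) (B w)) ∧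
    ∀ v w, H.Adj v w → ∃ x ∈ B v, ∃ y ∈ B w, G.Adj x y

/-- planarity of a finite abstract graph, by Wagner's theorem: neither `K₅` nor `K₃,₃` is a minor -/
def IsPlanar {V : Type} (G : SimpleGraph V) : Prop :=
  ¬ IsMinor (⊤ : SimpleGraph (Fin 5)) G ∧ ¬ IsMinor (completeBipartiteGraph (Fin 3) (Fin 3)) G

open Classical in
/-- the bits `q_i(x,y)`: whether `x < y` in the linear order `L_i` -/
noncomputable def bits {P : Type} {d : ℕ} (L : Fin d → LinearOrder P) (x y : P) : Fin d → Bool :=
  fun i => decide ((L i).lt x y)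

/-- the linear orders `L_1, …, L_d` and the Boolean function `φ` form a Boolean realizer of `P` -/
def IsRealizer {P : Type} [PartialOrder P] {d : ℕ} (L : Fin d → LinearOrder P)
    (φ : (Fin d → Bool) → Bool) : Prop :=
  ∀ x y : P, x ≠ y → (x < y ↔ φ (bits L x y) = true)

/-- the Boolean dimension: the least `d ≥ 1` for which there is a Boolean realizer of size `d` -/
noncomputable def booleanDim (P : Type) [PartialOrder P] : ℕ :=
  sInf {d | 1 ≤ d ∧ ∃ (L : Fin d → LinearOrder P) (φ : (Fin d → Bool) → Bool), IsRealizer L φ}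

/-- There are `d ≥ 1` and ONE Boolean function `φ` of `d` bits such that every finite poset with a planar
cover graph has a Boolean realizer of size `d` with this function `φ`; in particular its Boolean
dimension is at most `d`. -/
theorem result :
    ∃ (d : ℕ) (φ : (Fin d → Bool) → Bool), 1 ≤ d ∧
      ∀ (P : Type) [Finite P] [PartialOrder P], IsPlanar (coverGraph P) →
        (∃ L : Fin d → LinearOrder P, IsRealizer L φ) ∧ booleanDim P ≤ d := by
  classical
  obtain ⟨K, φ, h⟩ := Pool.BD.z3All (Pool.BD.w2 Pool.BD.w1) Pool.BD.ac1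
  have hL := Pool.BD.zl Pool.BD.zlr Pool.BD.zld
  refine ⟨K + 1, fun b => φ fun j => b j.castSucc, Nat.le_add_left 1 K, ?_⟩
  intro P _ _ hpl
  have hcov : coverGraph P = Pool.BD.cov P := by
    ext x y
    have hc : ∀ a b : P, Covers a b ↔ a ⋖ b := by
      intro a b
      constructor
      · rintro ⟨h1, h2⟩
        exact ⟨h1, fun z hz hz' => h2 ⟨z, hz, hz'⟩⟩
      · rintro ⟨h1, h2⟩
        exact ⟨h1, fun ⟨z, hz, hz'⟩ => h2 hz hz'⟩
    have h0 : (Pool.BD.cov P).Adj x y ↔ x ≠ y ∧ (x ⋖ y ∨ y ⋖ x) := by
      unfold Pool.BD.cov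
      exact SimpleGraph.fromRel_adj _ _ _
    rw [h0]
    constructor
    · intro hxy
      refine ⟨(coverGraph P).ne_of_adj hxy, ?_⟩
      rcases hxy with hxy | hxy
      · exact Or.inl ((hc _ _).1 hxy)
      · exact Or.inr ((hc _ _).1 hxy)
    · rintro ⟨-, hxy⟩
      rcases hxy with hxy | hxy
      · exact Or.inl ((hc _ _).2 hxy)
      · exact Or.inr ((hc _ _).2 hxy)
  have hfr : Pool.WG.Fr (Pool.BD.cov P) := by
    rw [← hcov]
    exact hpl
  obtain ⟨comp, ly, lay⟩ := hL P
  obtain ⟨L, hLi, hLr⟩ := h ⟨P, inferInstance, inferInstance, hfr, comp, ly, lay⟩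
  have e0 : ∃ g : P → ℕ, Function.Injective g := by
    obtain ⟨n, ⟨e⟩⟩ := Finite.exists_equiv_fin P
    exact ⟨fun x => (e x : ℕ), fun x y hxy => e.injective (Fin.ext hxy)⟩
  obtain ⟨g, hg⟩ := e0
  let M : Fin (K + 1) → LinearOrder P := Fin.snoc (α := fun _ => LinearOrder P)
    (fun j => LinearOrder.lift' (L j) (hLi j)) (LinearOrder.lift' g hg)
  have hM : IsRealizer M fun b => φ fun j => b j.castSucc := by
    intro x y hne
    have e1 : (fun j : Fin K => bits M x y j.castSucc) = Pool.BD.Bits L x y := by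
      funext j
      have e2 : M j.castSucc = LinearOrder.lift' (L j) (hLi j) := by
        simp only [M, Fin.snoc_castSucc]
      unfold bits Pool.BD.Bits
      rw [e2]
      have e3 : (LinearOrder.lift' (L j) (hLi j)).lt x y ↔ L j x < L j y := Iff.rfl
      exact decide_eq_decide.2 e3
    show x < y ↔ φ (fun j => bits M x y j.castSucc) = true
    rw [e1]
    exact hLr x y hne trivial
  exact ⟨⟨M, hM⟩, Nat.sInf_le ⟨Nat.le_add_left 1 K, M, _, hM⟩⟩

end Pool.Agent.Results.MP_c9fc14_co.UniformRealizer
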